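import Pool.Agent.H606.GU.Stm

/-! Task TC of project GU (helper606): the tiles. -/

open MeasureTheory Filter Topology Finset
open Pool.Agent.H606.GU

namespace Pool.Agent.H385.GU.TC

/-- injective families with values in a set -/
theorem inj_card {α : Type} [Fintype α] (N : ℕ) (J : Set (Fin N)) :
    {s : α → Fin N | Function.Injective s ∧ ∀ l, s l ∈ J}.ncard =
      J.ncard.descFactorial (Fintype.card α) := by
  classical
  have e : {s : α → Fin N | Function.Injective s ∧ ∀ l, s l ∈ J} ≃ (α ↪ J) :=
    { toFun := fun s => ⟨fun l => ⟨s.1 l, s.2.2 l⟩, fun a b hab => s.2.1 (by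
        simpa using congrArg Subtype.val hab)⟩
      invFun := fun f => ⟨fun l => (f l : Fin N), fun a b hab => f.injective (Subtype.ext hab),
        fun l => (f l).2⟩
      left_inv := fun s => rfl
      right_inv := fun f => rfl }
  rw [← Nat.card_coe_set_eq, Nat.card_congr e, Nat.card_eq_fintype_card,
    Fintype.card_embedding_eq, ← Nat.card_coe_set_eq, Nat.card_eq_fintype_card]

/-- pairs of injective families with values in disjoint sets -/
theorem inj_two {α β γ : Type} [Finite α] [Finite β] [Finite γ] (N : ℕ) (J J' : Set (Fin N))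
    (hJ : Disjoint J J') (f : α → γ) (g : β → γ) (hfg : Function.Bijective (Sum.elim f g)) :
    {s : γ → Fin N | Function.Injective s ∧ (∀ l, s (f l) ∈ J) ∧ ∀ l, s (g l) ∈ J'}.ncard =
      {s : α → Fin N | Function.Injective s ∧ ∀ l, s l ∈ J}.ncard *
      {s : β → Fin N | Function.Injective s ∧ ∀ l, s l ∈ J'}.ncard := by
  classical
  rw [← Set.ncard_prod]
  set F : (γ → Fin N) → (α → Fin N) × (β → Fin N) := fun s => (fun l => s (f l), fun l => s (g l))
    with hF
  have hFi : Function.Injective F := by
    intro s s' h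
    funext c
    obtain ⟨d, rfl⟩ := hfg.2 c
    rw [hF, Prod.mk.injEq] at h
    rcases d with d | d
    · exact congrFun h.1 d
    · exact congrFun h.2 d
  rw [← Set.ncard_image_of_injective _ hFi]
  congr 1
  have hinl : Function.Injective f := fun a b hab => Sum.inl_injective (hfg.1 hab)
  have hinr : Function.Injective g := fun a b hab => Sum.inr_injective (hfg.1 hab)
  ext ⟨s1, s2⟩
  constructor
  · rintro ⟨s, ⟨hs, h1, h2⟩, h⟩
    rw [hF, Prod.mk.injEq] at h
    obtain ⟨rfl, rfl⟩ := h
    exact ⟨⟨fun a b hab => hinl (hs hab), h1⟩, ⟨fun a b hab => hinr (hs hab), h2⟩⟩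
  · rintro ⟨⟨h1, h2⟩, ⟨h3, h4⟩⟩
    set e := Equiv.ofBijective _ hfg with he
    have e1 : ∀ l, e.symm (f l) = Sum.inl l := fun l => by
      rw [Equiv.symm_apply_eq]
      rfl
    have e2 : ∀ l, e.symm (g l) = Sum.inr l := fun l => by
      rw [Equiv.symm_apply_eq]
      rfl
    refine ⟨fun c => Sum.elim s1 s2 (e.symm c), ⟨?_, ?_, ?_⟩, ?_⟩
    · have : Function.Injective (Sum.elim s1 s2) := by
        intro a b hab
        rcases a with a | a <;> rcases b with b | b
        · exact congrArg Sum.inl (h1 hab)
        · exfalso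
          have hab' : s1 a = s2 b := hab
          have h5 : s1 a ∈ J := h2 a
          have h6 : s2 b ∈ J' := h4 b
          rw [← hab'] at h6
          exact Set.disjoint_left.1 hJ h5 h6
        · exfalso
          have hab' : s2 a = s1 b := hab
          have h5 : s1 b ∈ J := h2 b
          have h6 : s2 a ∈ J' := h4 a
          rw [hab'] at h6
          exact Set.disjoint_left.1 hJ h5 h6
        · exact congrArg Sum.inr (h3 hab)
      exact this.comp e.symm.injective
    · intro l
      simp only [e1]
      exact h2 l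
    · intro l
      simp only [e2]
      exact h4 l
    · rw [hF, Prod.mk.injEq]
      constructor
      · funext l
        simp only [e1]
        rfl
      · funext l
        simp only [e2]
        rfl

open Classical in
theorem tc_card {N : ℕ} (x : Fin N → ℝ) (a : ℝ) (i : ℕ) (t : ℝ) :
    tc x a i t = (univ.filter fun j : Fin N =>
      (i : ℝ) * a ≤ x j - t ∧ x j - t < ((i : ℝ) + 1) * a).card := by
  rw [tc, ← Set.ncard_coe_finset]
  congr 1
  ext j
  simp

open Classical in
theorem tc_sum {N : ℕ} (x : Fin N → ℝ) (a : ℝ) (i : ℕ) (t : ℝ) :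
    (tc x a i t : ℝ) = ∑ j : Fin N,
      if (i : ℝ) * a ≤ x j - t ∧ x j - t < ((i : ℝ) + 1) * a then (1 : ℝ) else 0 := by
  rw [tc_card, Finset.sum_boole]

open Classical in
theorem one_tile (a y : ℝ) (ha : 0 < a) (M : ℕ) :
    ∑ i ∈ range M, (if (i : ℝ) * a ≤ y ∧ y < ((i : ℝ) + 1) * a then (1 : ℝ) else 0) =
      if (0 : ℝ) ≤ y ∧ y < M * a then 1 else 0 := by
  induction M with
  | zero =>
    rw [Finset.sum_range_zero, if_neg]
    rintro ⟨h1, h2⟩
    simp at h2
    linarith
  | succ M ih =>
    rw [Finset.sum_range_succ, ih]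
    have hM : (0 : ℝ) ≤ M * a := by positivity
    push_cast
    by_cases h0 : 0 ≤ y
    · by_cases h1 : y < M * a
      · rw [if_pos ⟨h0, h1⟩, if_neg (fun h => absurd h.1 (not_le.2 h1)),
          if_pos ⟨h0, by linarith⟩, add_zero]
      · rw [if_neg (fun h => h1 h.2), zero_add]
        by_cases h2 : y < ((M : ℝ) + 1) * a
        · rw [if_pos ⟨not_lt.1 h1, h2⟩, if_pos ⟨h0, h2⟩]
        · rw [if_neg (fun h => h2 h.2), if_neg (fun h => h2 h.2)]
    · rw [if_neg (fun h => h0 h.1), if_neg (fun h => h0 (hM.trans h.1)),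
        if_neg (fun h => h0 h.1), add_zero]

theorem t_TC : S_TC := by
  intro N x a ha
  have hdis : ∀ (i i' : ℕ) (t : ℝ), i ≠ i' →
      Disjoint {j : Fin N | (i : ℝ) * a ≤ x j - t ∧ x j - t < ((i : ℝ) + 1) * a}
        {j : Fin N | (i' : ℝ) * a ≤ x j - t ∧ x j - t < ((i' : ℝ) + 1) * a} := by
    intro i i' t hii
    rw [Set.disjoint_left]
    rintro j ⟨h1, h2⟩ ⟨h3, h4⟩
    have h5 : (i : ℝ) < i' + 1 := by
      have := h1.trans_lt h4
      exact lt_of_mul_lt_mul_right this ha.le
    have h6 : (i' : ℝ) < i + 1 := by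
      have := h3.trans_lt h2
      exact lt_of_mul_lt_mul_right this ha.le
    have h7 : i < i' + 1 := by exact_mod_cast h5
    have h8 : i' < i + 1 := by exact_mod_cast h6
    omega
  refine ⟨?_, ?_, ?_, ?_, ?_, ?_, ?_, ?_, ?_⟩
  · intro k i t
    have h := inj_card (α := Fin k) N
      {j : Fin N | (i : ℝ) * a ≤ x j - t ∧ x j - t < ((i : ℝ) + 1) * a}
    rw [Fintype.card_fin] at h
    rw [tc, ← h]
    rfl
  · intro k i i' t hii
    have hb : Function.Bijective (Sum.elim (fun l : Fin k => (Fin.castSucc l : Fin (k + 1)))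
        (fun _ : Fin 1 => Fin.last k)) := by
      have : (Sum.elim (fun l : Fin k => (Fin.castSucc l : Fin (k + 1)))
        (fun _ : Fin 1 => Fin.last k)) = (finSumFinEquiv : Fin k ⊕ Fin 1 ≃ Fin (k + 1)) := by
        funext c
        rcases c with c | c
        · simp only [Sum.elim_inl, finSumFinEquiv_apply_left]
          rfl
        · simp only [Sum.elim_inr, finSumFinEquiv_apply_right]
          ext
          simp
      rw [this]
      exact Equiv.bijective _
    have h := inj_two N _ _ (hdis i i' t hii) _ _ hb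
    rw [inj_card, inj_card, Fintype.card_fin, Fintype.card_fin, Nat.descFactorial_one] at h
    rw [tc, tc, ← h, cnt]
    congr 1
    ext s
    constructor
    · rintro ⟨h1, h2, h3⟩
      exact ⟨h1, h2, (h3 0).1, (h3 0).2⟩
    · rintro ⟨h1, h2, h3, h4⟩
      exact ⟨h1, h2, fun _ => ⟨h3, h4⟩⟩
  · intro k i i' t hii
    have hb : Function.Bijective (Sum.elim (fun l : Fin k => ((0, l) : Fin 2 × Fin k))
        (fun l : Fin k => ((1, l) : Fin 2 × Fin k))) := by
      constructor
      · intro c d hcd
        rcases c with c | c <;> rcases d with d | d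
        · simp only [Sum.elim_inl, Prod.mk.injEq, true_and] at hcd
          rw [hcd]
        · simp at hcd
        · simp at hcd
        · simp only [Sum.elim_inr, Prod.mk.injEq, true_and] at hcd
          rw [hcd]
      · rintro ⟨c, l⟩
        fin_cases c
        · exact ⟨Sum.inl l, rfl⟩
        · exact ⟨Sum.inr l, rfl⟩
    have h := inj_two N _ _ (hdis i i' t hii) _ _ hb
    rw [inj_card, inj_card, Fintype.card_fin] at h
    rw [tc, tc, ← h, cnt]
    rfl
  · intro i t
    rw [tc, tc]
    congr 1
    ext j
    simp only [Set.mem_ofPred_eq, Nat.cast_zero, zero_mul, zero_add, one_mul]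
    constructor
    · rintro ⟨h1, h2⟩
      constructor <;> linarith
    · rintro ⟨h1, h2⟩
      constructor <;> linarith
  · intro i
    classical
    have : (fun t => (tc x a i t : ℝ)) = fun t => ∑ j : Fin N,
      if (i : ℝ) * a ≤ x j - t ∧ x j - t < ((i : ℝ) + 1) * a then (1 : ℝ) else 0 := by
      funext t
      exact tc_sum x a i t
    rw [this]
    refine Finset.measurable_sum _ fun j _ => ?_
    refine Measurable.ite ?_ measurable_const measurable_const
    refine MeasurableSet.inter ?_ ?_
    · exact measurableSet_le measurable_const (measurable_const.sub measurable_id)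
    · exact measurableSet_lt (measurable_const.sub measurable_id) measurable_const
  · intro M R hR i hi t ht
    rw [tc, Set.ncard_eq_zero]
    ext j
    simp only [Set.mem_ofPred_eq, Set.mem_empty_iff_false, iff_false]
    rintro ⟨h1, h2⟩
    apply ht
    have h3 := hR j
    have h4 : (i : ℝ) + 1 ≤ M := by exact_mod_cast hi
    have h5 : ((i : ℝ) + 1) * a ≤ M * a := mul_le_mul_of_nonneg_right h4 ha.le
    have h6 : 0 ≤ (i : ℝ) * a := by positivity
    constructor <;> linarith
  · intro i t
    rw [tc_card]
    refine (Finset.card_filter_le _ _).trans ?_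
    simp
  · intro i
    classical
    have h1 : ∀ j : Fin N, (fun t : ℝ =>
        if (i : ℝ) * a ≤ x j - t ∧ x j - t < ((i : ℝ) + 1) * a then (1 : ℝ) else 0) =
        Set.indicator (Set.Ioc (x j - ((i : ℝ) + 1) * a) (x j - i * a)) (fun _ => (1 : ℝ)) := by
      intro j
      funext t
      by_cases h : t ∈ Set.Ioc (x j - ((i : ℝ) + 1) * a) (x j - i * a)
      · rw [Set.indicator_of_mem h, if_pos]
        exact ⟨by linarith [h.2], by linarith [h.1]⟩
      · rw [Set.indicator_of_notMem h, if_neg]
        rintro ⟨h2, h3⟩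
        exact h ⟨by linarith, by linarith⟩
    have h2 : (fun t => (tc x a i t : ℝ)) = fun t => ∑ j : Fin N,
        Set.indicator (Set.Ioc (x j - ((i : ℝ) + 1) * a) (x j - i * a)) (fun _ => (1 : ℝ)) t := by
      funext t
      rw [tc_sum x a i t]
      refine Finset.sum_congr rfl fun j _ => ?_
      exact congrFun (h1 j) t
    rw [h2, integral_finsetSum]
    · have h3 : ∀ j : Fin N, ∫ t : ℝ, Set.indicator
          (Set.Ioc (x j - ((i : ℝ) + 1) * a) (x j - i * a)) (fun _ => (1 : ℝ)) t = a := by
        intro j
        rw [integral_indicator measurableSet_Ioc, setIntegral_const, smul_eq_mul, mul_one,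
          Measure.real, Real.volume_Ioc, ENNReal.toReal_ofReal (by linarith)]
        ring
      simp only [h3, Finset.sum_const, Finset.card_univ, Fintype.card_fin, nsmul_eq_mul]
    · intro j _
      rw [integrable_indicator_iff measurableSet_Ioc]
      exact integrableOn_const (by
        rw [Real.volume_Ioc]
        exact ENNReal.ofReal_ne_top)
  · intro M t
    classical
    rw [NN, tc_sum]
    simp only [tc_sum]
    rw [Finset.sum_comm]
    refine Finset.sum_congr rfl fun j _ => ?_
    rw [one_tile a (x j - t) ha M]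
    simp only [Nat.cast_zero, zero_mul, zero_add, one_mul]

end Pool.Agent.H385.GU.TC
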